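import Pool.Agent.H16.SC.Basic
import Pool.Agent.H16.SC.Targets

/-!
KNZ: calculus of nonzero products of nef classes (MP_f2954d_ag, block B1).
-/

namespace Pool.Agent.H49.SC

open SCB

section

variable {N P : Type} [NormedAddCommGroup N] [NormedSpace ℝ N] [FiniteDimensional ℝ N] {n : ℕ}
  (X : Geo N P n)

lemma mem_add_nef {Z Z' : Multiset N} (h : ∀ a ∈ Z, a ∈ X.Nef) (h' : ∀ a ∈ Z', a ∈ X.Nef) :
    ∀ a ∈ Z + Z', a ∈ X.Nef := by
  intro a ha
  rcases Multiset.mem_add.1 ha with h1 | h1
  · exact h a h1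
  · exact h' a h1

lemma mem_rep_nef {A : N} (hA : A ∈ X.Nef) (r : ℕ) : ∀ a ∈ Multiset.replicate r A, a ∈ X.Nef := by
  intro a ha
  rw [Multiset.eq_of_mem_replicate ha]; exact hA

/-- if the product of `Z` is numerically zero -/
lemma zero_of_not_nz (hps : T_PS) (hpm : T_PM) (hdm : T_DM) {A : N} (hA : A ∈ X.Amp)
    {Z : Multiset N} (hZ : ∀ a ∈ Z, a ∈ X.Nef) (h : ¬ X.Nz A Z) (s : Multiset N)
    (hs : Z.card + s.card = n) : X.I (Z + s) = 0 := by
  have hA' : A ∈ X.Nef := interior_subset hA
  have h1 : ¬ 0 < X.I (Z + Multiset.replicate s.card A) := fun hh => h ⟨s.card, hs, hh⟩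
  have h2 : 0 ≤ X.I (Z + Multiset.replicate s.card A) := by
    refine (hps N P n X).1 _ (by rw [Multiset.card_add, Multiset.card_replicate]; exact hs) ?_
    exact mem_add_nef X hZ (mem_rep_nef X hA' _)
  have h3 : X.I (Z + Multiset.replicate s.card A) = 0 := le_antisymm (not_lt.1 h1) h2
  refine hdm N P n X Z (Multiset.replicate s.card A) ((hpm N P n X).2.1 Z hZ) ?_ ?_ h3 s ?_
  · intro a ha
    rw [Multiset.eq_of_mem_replicate ha]; exact hA
  · rw [Multiset.card_replicate]; exact hs
  · rw [Multiset.card_replicate]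

lemma nz_step (hps : T_PS) {A a b : N} (hA : A ∈ X.Nef) (hb : b ∈ X.Nef) {Z : Multiset N}
    (hZ : ∀ c ∈ Z, c ∈ X.Nef) (h : X.Nz A (a ::ₘ Z)) : X.Nz A ((a + b) ::ₘ Z) := by
  obtain ⟨r, hr, hpos⟩ := h
  rw [Multiset.card_cons] at hr
  refine ⟨r, by rw [Multiset.card_cons]; exact hr, ?_⟩
  have hc : (Z + Multiset.replicate r A).card + 1 = n := by
    rw [Multiset.card_add, Multiset.card_replicate]; omega
  rw [Multiset.cons_add] at hpos ⊢
  rw [X.I_add _ _ hc]
  have h2 : 0 ≤ X.I (b ::ₘ (Z + Multiset.replicate r A)) := by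
    refine (hps N P n X).1 _ (by rw [Multiset.card_cons]; exact hc) ?_
    intro c hcm
    rcases Multiset.mem_cons.1 hcm with h1 | h1
    · rw [h1]; exact hb
    · exact mem_add_nef X hZ (mem_rep_nef X hA _) c h1
  linarith

lemma add_replicate_succ (Z : Multiset N) (k : ℕ) (a : N) :
    Z + Multiset.replicate (k + 1) a = (a ::ₘ Z) + Multiset.replicate k a := by
  rw [Multiset.replicate_succ, Multiset.add_cons, Multiset.cons_add]

end

theorem knz (hcn : T_CN) (hps : T_PS) (hpm : T_PM) (hdm : T_DM) (hpa : T_PA) : T_NZ := by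
  intro N P _ _ _ n X A hAG
  have hA : A ∈ X.Amp := (hcn N P n X).2.2.1 A hAG
  have hA' : A ∈ X.Nef := interior_subset hA
  refine ⟨?_, ?_, ?_, ?_⟩
  · intro Z Z' hZ hZ' h
    by_contra hn
    obtain ⟨r, hr, hpos⟩ := h
    rw [Multiset.card_add] at hr
    have := zero_of_not_nz X hps hpm hdm hA hZ hn (Z' + Multiset.replicate r A)
      (by rw [Multiset.card_add, Multiset.card_replicate]; omega)
    rw [← add_assoc] at this
    exact absurd this hpos.ne'
  · intro Z hZ _ hn s hs
    exact zero_of_not_nz X hps hpm hdm hA hZ hn s hs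
  · intro Z a b k
    induction k generalizing Z with
    | zero => intro _ _ _ h; simpa using h
    | succ k ih =>
      intro hZ ha hb h
      rw [add_replicate_succ] at h
      have h1 := ih (a ::ₘ Z) (by
        intro c hc
        rcases Multiset.mem_cons.1 hc with h1 | h1
        · rw [h1]; exact ha
        · exact hZ c h1) ha hb h
      rw [Multiset.cons_add] at h1
      have hab : a + b ∈ X.Nef := (hcn N P n X).1 a ha b hb
      have h2 := nz_step X hps hA' hb (mem_add_nef X hZ (mem_rep_nef X hab k)) h1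
      rw [add_replicate_succ, Multiset.cons_add]
      exact h2
  · intro Z hc hZ
    refine ⟨n - Z.card, by omega, ?_⟩
    refine (hpa N P n X).1 _ (by rw [Multiset.card_add, Multiset.card_replicate]; omega) ?_
    intro a ha
    rcases Multiset.mem_add.1 ha with h1 | h1
    · exact hZ a h1
    · rw [Multiset.eq_of_mem_replicate h1]; exact hA

end Pool.Agent.H49.SC
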