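import Pool.Agent.H16.SC.Basic
import Pool.Agent.H16.SC.Targets
import Pool.Agent.H49.SC.KNZ

/-!
KCL: the classes of `V` are not limits (MP_f2954d_ag, block B1).
-/

namespace Pool.Agent.H49.SC

open SCB Filter Topology

section

variable {N P ι : Type} [NormedAddCommGroup N] [NormedSpace ℝ N] [FiniteDimensional ℝ N] {n : ℕ}
  (X : Geo N P n) [Fintype ι]

/-- a linear condition that holds for the generators of `V L` -/
lemma span_ind (L : ι → N) (t : Multiset N) (ht : t.card + 1 = n)
    (h : ∀ D : P, X.Ker L (X.cl D) → X.I (X.cl D ::ₘ t) = 0) {x : N} (hx : x ∈ X.V L) :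
    X.I (x ::ₘ t) = 0 := by
  unfold SCB.Geo.V at hx
  induction hx using Submodule.span_induction with
  | mem x hx =>
    obtain ⟨D, hD, rfl⟩ := hx
    exact h D hD
  | zero => exact X.I_zero ht
  | add x y _ _ hx hy => rw [X.I_add _ _ ht, hx, hy, add_zero]
  | smul c x _ hx => rw [X.I_smul _ _ ht, hx, mul_zero]

lemma ker_of_V (hn : Fintype.card ι + 2 = n) (L : ι → N) {x : N} (hx : x ∈ X.V L) :
    X.Ker L x := by
  intro y
  refine span_ind X L (y ::ₘ ms L) (by rw [Multiset.card_cons, card_ms]; omega) ?_ hx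
  intro D hD
  exact hD y

/-- the two cases of the claim -/
lemma dm_case [DecidableEq ι] (hps : T_PS) (hpm : T_PM) (hdm : T_DM)
    (hn : Fintype.card ι + 2 = n) (L : ι → N) (hL : ∀ i, L i ∈ X.Nef) (S : Finset ι)
    (T : Multiset N) (hT : T.card = S.card + 1) (hTA : ∀ a ∈ T, a ∈ X.Amp) (D : P)
    (h : X.I (X.cl D ::ₘ (T + mss Sᶜ L)) = 0) (w : Multiset N) (hw : w.card = S.card + 1) :
    X.I (X.cl D ::ₘ (w + mss Sᶜ L)) = 0 := by
  have hc : S.card + (Sᶜ : Finset ι).card = Fintype.card ι := Finset.card_add_card_compl S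
  have hW : X.PosM (X.cl D ::ₘ mss Sᶜ L) := by
    refine (hpm N P n X).2.2.1 (X.cl D) (mss Sᶜ L) ((hps N P n X).2.1 D) ?_
    intro a ha
    obtain ⟨i, _, rfl⟩ := (mem_mss _ _ _).1 ha
    exact hL i
  have h1 := hdm N P n X (X.cl D ::ₘ mss Sᶜ L) T hW hTA
    (by rw [Multiset.card_cons, card_mss, hT]; omega)
    (by rw [Multiset.cons_add, add_comm (mss Sᶜ L) T]; exact h) w (by rw [hw, hT])
  rwa [Multiset.cons_add, add_comm (mss Sᶜ L) w] at h1

end

theorem kcl (hcn : T_CN) (hlr : T_LR) (hps : T_PS) (hpm : T_PM) (hdm : T_DM) (hrp : T_RP)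
    (hcs : T_CS) : T_CL := by
  intro N P ι _ _ _ _ n X A hAG hn L hNS hIH e a x x₀ he het hat hxt h0 hxV
  classical
  have hA : A ∈ X.Amp := (hcn N P n X).2.2.1 A hAG
  have claim : ∀ s : ℕ, ∀ S : Finset ι, S.card = s → ∀ w : Multiset N, w.card = S.card + 1 →
      X.I (x₀ ::ₘ (w + mss Sᶜ L)) = 0 := by
    intro s
    induction s using Nat.strong_induction_on with
    | _ s ih =>
    intro S hS w hw
    rcases Nat.eq_zero_or_pos s with h | hspos
    · subst h
      rw [Finset.card_eq_zero] at hS
      subst hS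
      obtain ⟨y, rfl⟩ := Multiset.card_eq_one.1 (by rw [hw, Finset.card_empty])
      have h1 := ker_of_V X hn L hxV y
      rw [Finset.compl_empty, Multiset.singleton_add]
      exact h1
    · have hsum := hcs N P ι n X A hn L e a x x₀ he het hat hxt h0 s
        (fun S' hS' w' hw' => ih S'.card hS' S' rfl w' hw')
      -- properties of the terms
      have hq : ∀ S' : Finset ι, S'.card = s → ∀ i ∈ S',
          X.q (ms (rep A S' L)) (L i) x₀ = 0 := by
        intro S' hS' i hi
        have h1 := ih (S'.erase i).card (by rw [Finset.card_erase_of_mem hi]; omega) (S'.erase i)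
          rfl (Multiset.replicate S'.card A)
          (by rw [Multiset.card_replicate, Finset.card_erase_of_mem hi]; omega)
        have h2 : (S'.erase i)ᶜ = insert i S'ᶜ := by
          rw [Finset.compl_erase]
        rw [h2, mss_insert _ _ (by simpa using hi), Multiset.add_cons] at h1
        unfold SCB.Geo.q
        rw [ms_rep, Multiset.cons_swap]
        exact h1
      have hLor : ∀ S' : Finset ι, Lor (X.q (ms (rep A S' L))) ∧
          SymBil (X.q (ms (rep A S' L))) := by
        intro S'
        have hc : (ms (rep A S' L)).card + 2 = n := by rw [card_ms]; exact hn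
        refine ⟨(hps N P n X).2.2.2.1 _ hc ?_, X.symBil_q hc⟩
        intro b hb
        obtain ⟨i, rfl⟩ := (mem_ms _ _).1 hb
        exact (hrp N P ι n X A hAG hn L hNS S').1.1 i
      have hpos : ∀ S' : Finset ι, ∀ i, 0 < X.q (ms (rep A S' L)) (L i) (L i) := by
        intro S' i
        exact (hrp N P ι n X A hAG hn L hNS S').2.1 i
      have hterm : ∀ S' ∈ Finset.powersetCard s (Finset.univ : Finset ι),
          X.I (x₀ ::ₘ x₀ ::ₘ ms (rep A S' L)) ≤ 0 := by
        intro S' hS'
        have hS'c : S'.card = s := (Finset.mem_powersetCard.1 hS').2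
        obtain ⟨i, hi⟩ := Finset.card_pos.1 (by omega : 0 < S'.card)
        exact (hlr N (X.q (ms (rep A S' L))) (hLor S').2 (hLor S').1).1 (L i) x₀ (hpos S' i)
          (hq S' hS'c i hi)
      have hzero : X.I (x₀ ::ₘ x₀ ::ₘ ms (rep A S L)) = 0 :=
        (Finset.sum_eq_zero_iff_of_nonpos hterm).1 hsum S
          (Finset.mem_powersetCard.2 ⟨Finset.subset_univ _, hS⟩)
      obtain ⟨i0, hi0⟩ := Finset.card_pos.1 (by omega : 0 < S.card)
      have hker : X.Ker (rep A S L) x₀ :=
        (hlr N (X.q (ms (rep A S L))) (hLor S).2 (hLor S).1).2.1 (L i0) x₀ (hpos S i0)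
          (hq S hS i0 hi0) hzero
      have hcc : S.card + (Sᶜ : Finset ι).card = Fintype.card ι := Finset.card_add_card_compl S
      have hwc : (w + mss Sᶜ L).card + 1 = n := by
        rw [Multiset.card_add, card_mss]; omega
      by_cases hcase : ∃ i ∈ S, L i ∉ X.Amp
      · have hRP := hrp N P ι n X A hAG hn L hNS S
        have hV : x₀ ∈ X.V (rep A S L) := hIH _ hRP.1 (hRP.2.2 hcase) x₀ hker
        refine span_ind X (rep A S L) (w + mss Sᶜ L) hwc ?_ hV
        intro D hD
        refine dm_case X hps hpm hdm hn L hNS.1 S (Multiset.replicate (S.card + 1) A)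
          (Multiset.card_replicate _ _) ?_ D ?_ w hw
        · intro b hb
          rw [Multiset.eq_of_mem_replicate hb]; exact hA
        · have h1 := hD A
          rw [ms_rep] at h1
          rw [Multiset.replicate_succ, Multiset.cons_add]
          exact h1
      · push Not at hcase
        refine span_ind X L (w + mss Sᶜ L) hwc ?_ hxV
        intro D hD
        refine dm_case X hps hpm hdm hn L hNS.1 S (A ::ₘ mss S L)
          (by rw [Multiset.card_cons, card_mss]) ?_ D ?_ w hw
        · intro b hb
          rcases Multiset.mem_cons.1 hb with h1 | h1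
          · rw [h1]; exact hA
          · obtain ⟨i, hi, rfl⟩ := (mem_mss _ _ _).1 h1
            exact hcase i hi
        · have h1 := hD A
          rw [ms_compl S L] at h1
          rw [Multiset.cons_add]
          exact h1
  apply X.nondeg
  intro s hs
  have h1 := claim (Finset.univ : Finset ι).card Finset.univ rfl s (by rw [Finset.card_univ]; omega)
  rwa [Finset.compl_univ, mss_empty, add_zero] at h1

end Pool.Agent.H49.SC
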