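import Pool.Agent.H16.SC.Basic
import Pool.Agent.H16.SC.Targets

/-!
KGL: intersection numbers from a symmetric multilinear map (MP_f2954d_ag, block B1).
-/

namespace Pool.Agent.H49.SC

open SCB

/-- two families with the same multiset of values differ by a permutation -/
lemma exists_perm {n : ℕ} {N : Type} (f g : Fin n → N)
    (h : (Finset.univ : Finset (Fin n)).val.map f = (Finset.univ : Finset (Fin n)).val.map g) :
    ∃ σ : Equiv.Perm (Fin n), ∀ i, g (σ i) = f i := by
  classical
  have hc : ∀ a : N, Fintype.card {i // f i = a} = Fintype.card {i // g i = a} := by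
    intro a
    have h1 := congrArg (Multiset.count a) h
    rw [Multiset.count_map, Multiset.count_map] at h1
    rw [Fintype.card_subtype, Fintype.card_subtype]
    have e1 : ∀ u : Fin n → N, (Finset.univ.filter fun i => u i = a).card =
        ((Finset.univ : Finset (Fin n)).val.filter fun i => a = u i).card := by
      intro u
      rw [Finset.card_def, Finset.filter_val]
      congr 1
      exact Multiset.filter_congr fun i _ => eq_comm
    rw [e1, e1]
    exact h1
  let e : ∀ a : N, {i // f i = a} ≃ {i // g i = a} := fun a => Fintype.equivOfCardEq (hc a)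
  refine ⟨(Equiv.sigmaFiberEquiv f).symm.trans
    ((Equiv.sigmaCongrRight e).trans (Equiv.sigmaFiberEquiv g)), fun i => ?_⟩
  exact (e (f i) ⟨i, rfl⟩).2

lemma ofMulti_map {N : Type} [AddCommGroup N] [Module ℝ N] {n : ℕ}
    (μ : MultilinearMap ℝ (fun _ : Fin n => N) ℝ)
    (hμ : ∀ (σ : Equiv.Perm (Fin n)) (D : Fin n → N), μ (fun i => D (σ i)) = μ D)
    (g : Fin n → N) : ofMulti μ ((Finset.univ : Finset (Fin n)).val.map g) = μ g := by
  have hc : ((Finset.univ : Finset (Fin n)).val.map g).card = n := by simp
  unfold ofMulti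
  rw [dif_pos hc]
  set s := (Finset.univ : Finset (Fin n)).val.map g with hs
  have hl : s.toList.length = n := by rw [Multiset.length_toList]; exact hc
  have h1 : (Finset.univ : Finset (Fin n)).val.map
      (fun i : Fin n => s.toList.get (i.cast hl.symm)) = s := by
    rw [Fin.univ_val_map]
    conv_rhs => rw [← Multiset.coe_toList s]
    congr 1
    apply List.ext_get
    · simp [hl]
    · intro i h1 h2
      simp
  obtain ⟨σ, hσ⟩ := exists_perm _ g (h1.trans hs)
  rw [← hμ σ g]
  congr 1
  funext i
  exact (hσ i).symm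

lemma exists_map {N : Type} (m : ℕ) (s : Multiset N) (h : s.card = m) :
    ∃ g : Fin m → N, s = (Finset.univ : Finset (Fin m)).val.map g := by
  subst h
  have hl : s.toList.length = s.card := Multiset.length_toList s
  refine ⟨fun i => s.toList.get (i.cast hl.symm), ?_⟩
  rw [Fin.univ_val_map]
  conv_lhs => rw [← Multiset.coe_toList s]
  congr 1
  apply List.ext_get
  · simp
  · intro i h1 h2
    simp

lemma cons_map {N : Type} (m : ℕ) (g : Fin m → N) (a : N) :
    a ::ₘ (Finset.univ : Finset (Fin m)).val.map g =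
      (Finset.univ : Finset (Fin (m + 1))).val.map (Fin.cons a g : Fin (m + 1) → N) := by
  rw [Fin.univ_val_map, Fin.univ_val_map, List.ofFn_succ]
  simp

theorem kgl : T_GL := by
  intro N _ _ n μ hμ
  refine ⟨?_, ?_, ?_⟩
  · intro κ _ e f
    have h1 : ms f = (Finset.univ : Finset (Fin n)).val.map (fun i => f (e i)) := by
      unfold ms
      rw [← Multiset.map_univ_val_equiv e, Multiset.map_map]
      rfl
    rw [h1, ofMulti_map μ hμ]
  · intro a b s hs
    obtain ⟨m, rfl⟩ : ∃ m, n = m + 1 := ⟨s.card, hs.symm⟩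
    obtain ⟨g, rfl⟩ := exists_map m s (by omega)
    rw [cons_map, cons_map, cons_map, ofMulti_map μ hμ, ofMulti_map μ hμ, ofMulti_map μ hμ]
    exact μ.cons_add g a b
  · intro c a s hs
    obtain ⟨m, rfl⟩ : ∃ m, n = m + 1 := ⟨s.card, hs.symm⟩
    obtain ⟨g, rfl⟩ := exists_map m s (by omega)
    rw [cons_map, cons_map, ofMulti_map μ hμ, ofMulti_map μ hμ]
    exact μ.cons_smul g c a

end Pool.Agent.H49.SC
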